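import Mathlib

/-!
# Avoiding finitely many conjugation equations in an ICC group
-/

set_option autoImplicit false
set_option linter.unusedSectionVars false

namespace Pool.Agent.V11242.ED

open scoped Pointwise

variable {G : Type} [Group G]

theorem not_finiteIndex_centralizer {k : G} (h : {c | ∃ y : G, c = y * k * y⁻¹}.Infinite) :
    ¬ (Subgroup.centralizer {k} : Subgroup G).FiniteIndex := by
  intro hf
  haveI := hf
  haveI : Finite (G ⧸ (Subgroup.centralizer {k} : Subgroup G)) := inferInstance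
  apply h
  refine Set.Finite.subset (Set.finite_range
    (fun q : G ⧸ (Subgroup.centralizer {k} : Subgroup G) => q.out * k * q.out⁻¹)) ?_
  rintro c ⟨y, rfl⟩
  refine ⟨(y : G ⧸ (Subgroup.centralizer {k} : Subgroup G)), ?_⟩
  obtain ⟨z, hz⟩ := QuotientGroup.mk_out_eq_mul (Subgroup.centralizer {k} : Subgroup G) y
  have hzk : k * z.1 = z.1 * k := by
    have := (Subgroup.mem_centralizer_iff.1 z.2) k rfl
    exact this
  simp only
  rw [hz]
  calc y * z.1 * k * (y * z.1)⁻¹ = y * (z.1 * k) * z.1⁻¹ * y⁻¹ := by group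
    _ = y * (k * z.1) * z.1⁻¹ * y⁻¹ := by rw [hzk]
    _ = y * k * y⁻¹ := by group

theorem avoid [Infinite G]
    (hG : ∀ b : G, b ≠ 1 → {c | ∃ y : G, c = y * b * y⁻¹}.Infinite)
    (Cs K E : Finset G) (h1 : (1 : G) ∉ Cs) : ∃ x : G, x ∉ E ∧ ∀ c ∈ Cs, x⁻¹ * c * x ∉ K := by
  classical
  by_contra hcon
  push Not at hcon
  let H : G ⊕ (G × G) → Subgroup G := Sum.elim (fun _ => ⊥) (fun p => Subgroup.centralizer {p.2})
  let g : G ⊕ (G × G) → G := Sum.elim (fun e => e)
    (fun p => if h : ∃ x : G, x⁻¹ * p.1 * x = p.2 then h.choose else 1)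
  let s : Finset (G ⊕ (G × G)) := E.disjSum ((Cs ×ˢ K).filter fun p => p.2 ≠ 1)
  have hcov : ⋃ i ∈ s, (g i) • (H i : Set G) = Set.univ := by
    rw [Set.eq_univ_iff_forall]
    intro x
    rw [Set.mem_iUnion₂]
    by_cases hx : x ∈ E
    · refine ⟨Sum.inl x, by simpa [s] using hx, ?_⟩
      rw [mem_leftCoset_iff]
      show x⁻¹ * x ∈ ((⊥ : Subgroup G) : Set G)
      simp
    · obtain ⟨c, hc, hk⟩ := hcon x hx
      have hne : x⁻¹ * c * x ≠ 1 := by
        intro h
        apply h1
        have : c = x * (x⁻¹ * c * x) * x⁻¹ := by group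
        rw [h] at this
        have h2 : c = 1 := by rw [this]; group
        rw [← h2]
        exact hc
      refine ⟨Sum.inr (c, x⁻¹ * c * x), ?_, ?_⟩
      · simp only [s, Finset.inr_mem_disjSum, Finset.mem_filter, Finset.mem_product]
        exact ⟨⟨hc, hk⟩, hne⟩
      · rw [mem_leftCoset_iff]
        have hex : ∃ z : G, z⁻¹ * c * z = x⁻¹ * c * x := ⟨x, rfl⟩
        show (g (Sum.inr (c, x⁻¹ * c * x)))⁻¹ * x ∈
          ((Subgroup.centralizer {x⁻¹ * c * x} : Subgroup G) : Set G)
        have hg : g (Sum.inr (c, x⁻¹ * c * x)) = hex.choose := by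
          simp only [g, Sum.elim_inr]
          rw [dif_pos hex]
        rw [hg]
        have hz := hex.choose_spec
        set z := hex.choose
        rw [SetLike.mem_coe, Subgroup.mem_centralizer_iff]
        intro w hw
        rw [Set.mem_singleton_iff] at hw
        subst hw
        calc x⁻¹ * c * x * (z⁻¹ * x) = (z⁻¹ * c * z) * (z⁻¹ * x) := by rw [hz]
          _ = z⁻¹ * x * (x⁻¹ * c * x) := by group
  obtain ⟨i, hi, hfi⟩ := Subgroup.exists_finiteIndex_of_leftCoset_cover hcov
  rcases i with e | p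
  · have hb : (⊥ : Subgroup G).FiniteIndex := hfi
    have := hb.index_ne_zero
    rw [Subgroup.index_bot] at this
    exact this Nat.card_eq_zero_of_infinite
  · simp only [s, Finset.inr_mem_disjSum, Finset.mem_filter, Finset.mem_product] at hi
    exact not_finiteIndex_centralizer (hG p.2 hi.2) hfi

end Pool.Agent.V11242.ED
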