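import Mathlib

/-!
# Extremal densities on groups: definitions
-/

set_option autoImplicit false

namespace Pool.Agent.V11242.ED

open scoped ENNReal

variable {G : Type} [Group G]

/-- The point mass at `x`. -/
noncomputable def dirac (x : G) : Set G → ℝ≥0∞ := fun A => Set.indicator A (fun _ => 1) x

/-- Finitely additive probability measures defined on all subsets of `G` (the class `P(G)`). -/
structure IsMeasure (ν : Set G → ℝ≥0∞) : Prop where
  mono : ∀ A B : Set G, A ⊆ B → ν A ≤ ν B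
  empty : ν ∅ = 0
  univ : ν Set.univ = 1
  add : ∀ A B : Set G, Disjoint A B → ν (A ∪ B) = ν A + ν B

/-- Finite convex combinations of point masses (the class `P_ω(G)`). -/
def IsFinitary (ν : Set G → ℝ≥0∞) : Prop :=
  ∃ (n : ℕ) (x : Fin n → G) (c : Fin n → ℝ≥0∞), ∑ j, c j = 1 ∧
    ν = fun A => ∑ j, c j * dirac (x j) A

/-- Uniform measures on finite nonempty sets (the class `P_u(G)`). -/
def IsUniform (ν : Set G → ℝ≥0∞) : Prop :=
  ∃ F : Finset G, F.Nonempty ∧ ν = fun A => (F.card : ℝ≥0∞)⁻¹ * ∑ x ∈ F, dirac x A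

/-- The convolution `(l * ν)(A) = ∑ g, l({g}) ν(g⁻¹ A)`. -/
noncomputable def conv (l ν : Set G → ℝ≥0∞) : Set G → ℝ≥0∞ :=
  fun A => ∑' g : G, l {g} * ν ((fun h => g * h) ⁻¹' A)

/-- The product of a list of measures. -/
noncomputable def prod : List (Set G → ℝ≥0∞) → Set G → ℝ≥0∞
  | [] => dirac 1
  | [ν] => ν
  | l :: m :: t => conv l (prod (m :: t))

/-- The five letters. -/
inductive Letter : Type
  | u | i | s | I | S

/-- The operator named by a letter. -/
noncomputable def opt : Letter → ((Set G → ℝ≥0∞) → ℝ≥0∞) → ℝ≥0∞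
  | Letter.u, Φ => ⨅ ν, ⨅ (_ : IsUniform ν), Φ ν
  | Letter.i, Φ => ⨅ ν, ⨅ (_ : IsFinitary ν), Φ ν
  | Letter.s, Φ => ⨆ ν, ⨆ (_ : IsFinitary ν), Φ ν
  | Letter.I, Φ => ⨅ ν, ⨅ (_ : IsMeasure ν), Φ ν
  | Letter.S, Φ => ⨆ ν, ⨆ (_ : IsMeasure ν), Φ ν

/-- Apply the operators `e 0, e 1, …` to the variables number `0, 1, …` of `Φ`, the operator
`e 0` being the outermost one. -/
noncomputable def iter : (n : ℕ) → (Fin n → Letter) → ((Fin n → Set G → ℝ≥0∞) → ℝ≥0∞) → ℝ≥0∞
  | 0, _, Φ => Φ Fin.elim0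
  | n + 1, e, Φ => opt (e 0) fun ν => iter n (fun j => e j.succ) fun w => Φ (Fin.cons ν w)

/-- The extremal density given by the word `e` and the permutation `s`. -/
noncomputable def extremal (n : ℕ) (s : Equiv.Perm (Fin n)) (e : Fin n → Letter) :
    Set G → ℝ≥0∞ :=
  fun A => iter n e fun ν => prod (List.ofFn fun j => ν (s j)) A

variable (G) in
/-- The set of all extremal densities on `G`: words of length `n + 1`, in which the letters `I`,
`S` may occur only at the position `s (n + 1)`. -/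
def Extremal : Set (Set G → ℝ≥0∞) :=
  {D | ∃ (n : ℕ) (s : Equiv.Perm (Fin (n + 1))) (e : Fin (n + 1) → Letter),
    (∀ j, e j = Letter.I ∨ e j = Letter.S → j = s (Fin.last n)) ∧ D = extremal (n + 1) s e}

variable (G) in
/-- Amenability: there is a left-invariant finitely additive probability measure. -/
def Amenable : Prop :=
  ∃ μ : Set G → ℝ≥0∞, IsMeasure μ ∧ ∀ (g : G) (A : Set G), μ ((fun h => g * h) ⁻¹' A) = μ A

end Pool.Agent.V11242.ED
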