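import Mathlib
import Pool.Agent.V11242.ED.Defs

/-!
# Extremal densities: the recursion for alternating words
-/

set_option autoImplicit false

namespace Pool.Agent.V11242.ED

open scoped ENNReal Pointwise

set_option linter.unusedSectionVars false

variable {G : Type} [Group G]

theorem dirac_mono (x : G) {A B : Set G} (h : A ⊆ B) : dirac x A ≤ dirac x B :=
  Set.indicator_le_indicator_of_subset h (fun _ => by simp) x

theorem dirac_le_one (x : G) (A : Set G) : dirac x A ≤ 1 := by
  classical
  unfold dirac Set.indicator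
  split_ifs <;> simp

theorem dirac_mem {x : G} {A : Set G} (h : x ∈ A) : dirac x A = 1 := by
  simp [dirac, h]

theorem dirac_not_mem {x : G} {A : Set G} (h : x ∉ A) : dirac x A = 0 := by
  simp [dirac, h]

/-- General finite index sets. -/
theorem isFinitary_of_fintype {ι : Type} [Fintype ι] (x : ι → G) (c : ι → ℝ≥0∞)
    (hc : ∑ j, c j = 1) : IsFinitary (fun A => ∑ j, c j * dirac (x j) A) := by
  classical
  let e := Fintype.equivFin ι
  refine ⟨Fintype.card ι, fun j => x (e.symm j), fun j => c (e.symm j), ?_, ?_⟩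
  · rw [← hc]
    exact Equiv.sum_comp e.symm c
  · funext A
    exact (Equiv.sum_comp e.symm (fun j => c j * dirac (x j) A)).symm

theorem isFinitary_dirac (x : G) : IsFinitary (dirac x) := by
  refine ⟨1, fun _ => x, fun _ => 1, by simp, ?_⟩
  funext A
  simp

theorem conv_eq {n : ℕ} (x : Fin n → G) (c : Fin n → ℝ≥0∞) (ν : Set G → ℝ≥0∞) (A : Set G) :
    conv (fun B => ∑ j, c j * dirac (x j) B) ν A =
      ∑ j, c j * ν ((fun h => x j * h) ⁻¹' A) := by
  unfold conv
  simp_rw [Finset.sum_mul]
  rw [Summable.tsum_finsetSum (fun _ _ => ENNReal.summable)]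
  refine Finset.sum_congr rfl fun j _ => ?_
  rw [tsum_eq_single (x j)]
  · rw [dirac_mem (Set.mem_singleton _)]
    ring
  · intro g hg
    rw [dirac_not_mem (by simpa using fun h => hg h.symm)]
    simp

theorem conv_dirac (x : G) (ν : Set G → ℝ≥0∞) (A : Set G) :
    conv (dirac x) ν A = ν ((fun h => x * h) ⁻¹' A) := by
  have h : (dirac x : Set G → ℝ≥0∞) = fun B => ∑ j : Fin 1, (fun _ => 1) j *
      dirac ((fun _ => x) j) B := by
    funext B
    simp
  rw [h, conv_eq]
  simp

theorem IsFinitary.mono {ρ : Set G → ℝ≥0∞} (h : IsFinitary ρ) {A B : Set G} (hAB : A ⊆ B) :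
    ρ A ≤ ρ B := by
  obtain ⟨n, x, c, -, rfl⟩ := h
  exact Finset.sum_le_sum fun j _ => mul_le_mul_right (dirac_mono _ hAB) _

theorem IsFinitary.conv {l ρ : Set G → ℝ≥0∞} (hl : IsFinitary l) (hρ : IsFinitary ρ) :
    IsFinitary (conv l ρ) := by
  obtain ⟨n, x, c, hc, rfl⟩ := hl
  obtain ⟨m, y, d, hd, rfl⟩ := hρ
  have := isFinitary_of_fintype (ι := Fin n × Fin m) (fun p => x p.1 * y p.2)
    (fun p => c p.1 * d p.2) (by
      rw [Fintype.sum_prod_type]
      simp_rw [← Finset.mul_sum, hd, mul_one, hc])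
  convert this using 1
  funext A
  rw [conv_eq, Fintype.sum_prod_type]
  refine Finset.sum_congr rfl fun j _ => ?_
  rw [Finset.mul_sum]
  refine Finset.sum_congr rfl fun k _ => ?_
  rw [mul_assoc]
  rfl

theorem conv_one {l : Set G → ℝ≥0∞} (hl : IsFinitary l) : Pool.Agent.V11242.ED.conv l (dirac 1) = l := by
  obtain ⟨n, x, c, hc, rfl⟩ := hl
  funext A
  rw [conv_eq]
  refine Finset.sum_congr rfl fun j _ => ?_
  congr 1
  by_cases h : x j ∈ A
  · rw [dirac_mem h, dirac_mem (by simpa using h)]
  · rw [dirac_not_mem h, dirac_not_mem (by simpa using h)]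

/-- The recursion operator. -/
noncomputable def T (Φ : (Set G → ℝ≥0∞) → ℝ≥0∞) (ρ : Set G → ℝ≥0∞) : ℝ≥0∞ :=
  ⨅ l, ⨅ (_ : IsFinitary l), ⨆ η, ⨆ (_ : IsFinitary η), Φ (conv l (conv η ρ))

/-- The iterates. -/
noncomputable def W (A : Set G) : ℕ → (Set G → ℝ≥0∞) → ℝ≥0∞
  | 0 => fun ρ => ρ A
  | k + 1 => T (W A k)

theorem T_le_of_le {Φ Ψ : (Set G → ℝ≥0∞) → ℝ≥0∞} (h : ∀ ρ, IsFinitary ρ → Φ ρ ≤ Ψ ρ)
    {ρ : Set G → ℝ≥0∞} (hρ : IsFinitary ρ) : T Φ ρ ≤ T Ψ ρ := by
  unfold T
  refine iInf_mono fun l => iInf_mono fun hl => iSup_mono fun η => iSup_mono fun hη => ?_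
  exact h _ (hl.conv (hη.conv hρ))

theorem T_congr {Φ Ψ : (Set G → ℝ≥0∞) → ℝ≥0∞} (h : ∀ ρ, IsFinitary ρ → Φ ρ = Ψ ρ)
    {ρ : Set G → ℝ≥0∞} (hρ : IsFinitary ρ) : T Φ ρ = T Ψ ρ :=
  le_antisymm (T_le_of_le (fun ρ hρ => (h ρ hρ).le) hρ) (T_le_of_le (fun ρ hρ => (h ρ hρ).ge) hρ)

/-! ### Alternating words -/

/-- The permutation `(2k-1, 2k, 2k-3, 2k-2, …, 1, 2)` (written with indices from `0`). -/
def swapFun (k : ℕ) (j : ℕ) : ℕ := if j % 2 = 0 then 2 * k - 2 - j else 2 * k - j

theorem swapFun_lt {k j : ℕ} (h : j < 2 * k) : swapFun k j < 2 * k := by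
  unfold swapFun
  split_ifs <;> omega

theorem swapFun_swapFun {k j : ℕ} (h : j < 2 * k) : swapFun k (swapFun k j) = j := by
  unfold swapFun
  split_ifs <;> omega

/-- The permutation `(2k-1, 2k, 2k-3, 2k-2, …, 1, 2)`. -/
def perm (k : ℕ) : Equiv.Perm (Fin (2 * k)) where
  toFun j := ⟨swapFun k j, swapFun_lt j.2⟩
  invFun j := ⟨swapFun k j, swapFun_lt j.2⟩
  left_inv j := Fin.ext (swapFun_swapFun j.2)
  right_inv j := Fin.ext (swapFun_swapFun j.2)

/-- The word `isis…is`. -/
def word (k : ℕ) : Fin (2 * k) → Letter := fun j => if j.1 % 2 = 0 then Letter.i else Letter.s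

/-- Fold of the convolution on a list, with last factor `ρ`. -/
noncomputable def fold (ρ : Set G → ℝ≥0∞) : List (Set G → ℝ≥0∞) → Set G → ℝ≥0∞
  | [] => ρ
  | l :: t => conv l (fold ρ t)

theorem fold_append (ρ : Set G → ℝ≥0∞) (L M : List (Set G → ℝ≥0∞)) :
    fold ρ (L ++ M) = fold (fold ρ M) L := by
  induction L with
  | nil => rfl
  | cons a L ih => simp only [List.cons_append, fold, ih]

theorem prod_eq_fold (L : List (Set G → ℝ≥0∞)) (h : ∀ l ∈ L, IsFinitary l) :
    prod L = fold (dirac 1) L := by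
  induction L with
  | nil => rfl
  | cons a L ih =>
    cases L with
    | nil => simp only [prod, fold]; exact (conv_one (h a (by simp))).symm
    | cons b L =>
      simp only [prod]
      rw [fold, ih (fun l hl => h l (by simp [hl]))]

theorem cons_two {α : Type} {n : ℕ} (a b : α) (w : Fin n → α) (m : ℕ) (h : m < n) :
    (Fin.cons a (Fin.cons b w : Fin (n + 1) → α) : Fin (n + 2) → α) ⟨m + 2, by omega⟩ =
      w ⟨m, h⟩ := rfl

theorem ofFn_perm {α : Type} (k : ℕ) (a b : α) (w : Fin (2 * k) → α) :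
    (List.ofFn fun j : Fin (2 * (k + 1)) =>
      (Fin.cons a (Fin.cons b w : Fin (2 * k + 1) → α) : Fin (2 * k + 2) → α) (perm (k + 1) j)) =
    (List.ofFn fun j => w (perm k j)) ++ [a, b] := by
  refine List.ext_getElem ?_ ?_
  · simp only [List.length_ofFn, List.length_append, List.length_cons, List.length_nil]
    omega
  · intro m h1 h2
    rw [List.getElem_ofFn]
    simp only [List.length_ofFn] at h1
    by_cases hm : m < 2 * k
    · rw [List.getElem_append_left (by simpa using hm), List.getElem_ofFn]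
      have h3 : perm (k + 1) ⟨m, h1⟩ = ⟨swapFun k m + 2, by
          have := swapFun_lt hm
          omega⟩ := by
        apply Fin.ext
        show swapFun (k + 1) m = swapFun k m + 2
        unfold swapFun
        split_ifs <;> omega
      rw [h3]
      exact cons_two a b w _ (swapFun_lt hm)
    · rw [List.getElem_append_right (by simpa using hm)]
      simp only [List.length_ofFn]
      have h4 : m = 2 * k ∨ m = 2 * k + 1 := by omega
      rcases h4 with h4 | h4
      · subst h4
        have h5 : perm (k + 1) ⟨2 * k, h1⟩ = ⟨0, by omega⟩ := by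
          apply Fin.ext
          show swapFun (k + 1) (2 * k) = 0
          unfold swapFun
          split_ifs <;> omega
        rw [h5]
        simp only [Nat.sub_self, List.getElem_cons_zero]
        rfl
      · subst h4
        have h5 : perm (k + 1) ⟨2 * k + 1, h1⟩ = ⟨1, by omega⟩ := by
          apply Fin.ext
          show swapFun (k + 1) (2 * k + 1) = 1
          unfold swapFun
          split_ifs <;> omega
        rw [h5]
        simp only [Nat.add_sub_cancel_left, List.getElem_cons_succ, List.getElem_cons_zero]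
        rfl

theorem iter_congr (n : ℕ) (e : Fin n → Letter) (he : ∀ j, e j = Letter.i ∨ e j = Letter.s)
    (Φ Ψ : (Fin n → Set G → ℝ≥0∞) → ℝ≥0∞)
    (h : ∀ w : Fin n → Set G → ℝ≥0∞, (∀ j, IsFinitary (w j)) → Φ w = Ψ w) :
    iter n e Φ = iter n e Ψ := by
  induction n with
  | zero => exact h _ (fun j => j.elim0)
  | succ n ih =>
    have key : ∀ ν : Set G → ℝ≥0∞, IsFinitary ν →
        iter n (fun j => e j.succ) (fun w => Φ (Fin.cons ν w)) =
        iter n (fun j => e j.succ) (fun w => Ψ (Fin.cons ν w)) := by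
      intro ν hν
      refine ih _ (fun j => he _) _ _ fun w hw => h _ fun j => ?_
      refine Fin.cases ?_ (fun i => ?_) j
      · simpa using hν
      · simpa using hw i
    unfold iter
    rcases he 0 with h0 | h0
    · rw [h0]
      unfold opt
      exact iInf_congr fun ν => iInf_congr fun hν => key ν hν
    · rw [h0]
      unfold opt
      exact iSup_congr fun ν => iSup_congr fun hν => key ν hν

theorem iter_word (A : Set G) (k : ℕ) (ρ : Set G → ℝ≥0∞) :
    iter (2 * k) (word k) (fun ν => fold ρ (List.ofFn fun j => ν (perm k j)) A) = W A k ρ := by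
  induction k generalizing ρ with
  | zero => rfl
  | succ k ih =>
    have h1 : iter (2 * (k + 1)) (word (k + 1))
        (fun ν : Fin (2 * (k + 1)) → Set G → ℝ≥0∞ =>
          fold ρ (List.ofFn fun j => ν (perm (k + 1) j)) A) =
        ⨅ a, ⨅ (_ : IsFinitary a), ⨆ b, ⨆ (_ : IsFinitary b), iter (2 * k) (word k)
          (fun w => fold ρ (List.ofFn fun j : Fin (2 * (k + 1)) =>
            (Fin.cons a (Fin.cons b w : Fin (2 * k + 1) → Set G → ℝ≥0∞) :
              Fin (2 * k + 2) → Set G → ℝ≥0∞) (perm (k + 1) j)) A) := by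
      have hw : (fun j : Fin (2 * k) => word (k + 1) j.succ.succ) = word k := by
        funext j
        show (if (j.1 + 1 + 1) % 2 = 0 then Letter.i else Letter.s) =
          (if j.1 % 2 = 0 then Letter.i else Letter.s)
        have : (j.1 + 1 + 1) % 2 = j.1 % 2 := by omega
        rw [this]
      rw [← hw]
      rfl
    rw [h1]
    show _ = T (W A k) ρ
    unfold T
    refine iInf_congr fun a => iInf_congr fun _ => iSup_congr fun b => iSup_congr fun _ => ?_
    rw [← ih]
    congr 1
    funext w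
    rw [ofFn_perm, fold_append]
    rfl

theorem word_letter (k : ℕ) (j : Fin (2 * k)) : word k j = Letter.i ∨ word k j = Letter.s := by
  unfold word
  split_ifs
  · exact Or.inl rfl
  · exact Or.inr rfl

theorem extremal_word (A : Set G) (k : ℕ) :
    extremal (2 * k) (perm k) (word k) A = W A k (dirac 1) := by
  rw [← iter_word]
  unfold extremal
  refine iter_congr _ _ (word_letter k) _ _ fun w hw => ?_
  rw [prod_eq_fold]
  intro l hl
  rw [List.mem_ofFn] at hl
  obtain ⟨j, rfl⟩ := hl
  exact hw _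

theorem mem_Extremal (k : ℕ) : (fun A : Set G => W A (k + 1) (dirac 1)) ∈ Extremal G := by
  refine ⟨2 * k + 1, perm (k + 1), word (k + 1), fun j hj => ?_, ?_⟩
  · rcases word_letter (k + 1) j with h | h
    · rcases hj with h' | h' <;> rw [h] at h' <;> cases h'
    · rcases hj with h' | h' <;> rw [h] at h' <;> cases h'
  · funext A
    exact (extremal_word A (k + 1)).symm

end Pool.Agent.V11242.ED
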