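import Mathlib
import Pool.Agent.V11242.ED.Core

/-!
# Extremal densities: infinitely many on countable ICC groups
-/

set_option autoImplicit false
set_option linter.unusedSectionVars false

namespace Pool.Agent.V11242.ED

open scoped ENNReal Pointwise

variable {G : Type} [Group G]

/-- Uniform measure on a finite set. -/
noncomputable def unif (F : Finset G) : Set G → ℝ≥0∞ :=
  fun A => (F.card : ℝ≥0∞)⁻¹ * ∑ x ∈ F, dirac x A

theorem isFinitary_unif {F : Finset G} (hF : F.Nonempty) : IsFinitary (unif F) := by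
  classical
  have h0 : (F.card : ℝ≥0∞) ≠ 0 := by
    simpa using hF.ne_empty
  have := isFinitary_of_fintype (ι := {x // x ∈ F}) (fun x => x.1)
    (fun _ => (F.card : ℝ≥0∞)⁻¹) (by
      rw [Finset.sum_const, Finset.card_univ, Fintype.card_coe, nsmul_eq_mul]
      exact ENNReal.mul_inv_cancel h0 (ENNReal.natCast_ne_top _))
  convert this using 1
  funext A
  unfold unif
  rw [Finset.mul_sum, ← Finset.sum_coe_sort]

theorem conv_unif (F : Finset G) (ν : Set G → ℝ≥0∞) (A : Set G) :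
    conv (unif F) ν A = (F.card : ℝ≥0∞)⁻¹ * ∑ x ∈ F, ν ((fun h => x * h) ⁻¹' A) := by
  unfold conv unif
  simp_rw [mul_assoc, Finset.sum_mul]
  rw [ENNReal.tsum_mul_left, Summable.tsum_finsetSum (fun _ _ => ENNReal.summable)]
  congr 1
  refine Finset.sum_congr rfl fun x _ => ?_
  rw [tsum_eq_single x]
  · rw [dirac_mem (Set.mem_singleton _), one_mul]
  · intro g hg
    rw [dirac_not_mem (by simpa using fun h => hg h.symm), zero_mul]

theorem card_filter_le (F D : Finset G) (a : G) :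
    ∑ f ∈ F, dirac (f * a) (D : Set G) ≤ (D.card : ℝ≥0∞) := by
  classical
  have h1 : ∑ f ∈ F, dirac (f * a) (D : Set G) = ((F.filter fun f => f * a ∈ D).card : ℝ≥0∞) := by
    rw [Finset.card_filter, Nat.cast_sum]
    refine Finset.sum_congr rfl fun f _ => ?_
    by_cases h : f * a ∈ D
    · rw [dirac_mem (by simpa using h)]; simp [h]
    · rw [dirac_not_mem (by simpa using h)]; simp [h]
  rw [h1]
  norm_cast
  refine Finset.card_le_card_of_injOn (fun f => f * a) (fun f hf => ?_) (fun f _ g _ h => ?_)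
  · simpa using (Finset.mem_filter.1 hf).2
  · exact mul_right_cancel h

theorem count {n : ℕ} (r : Fin n → G) (d : Fin n → ℝ≥0∞) (hd : ∑ j, d j = 1) (D : Finset G)
    (S : Set G) (Φ0 : ℝ≥0∞)
    (h : ∀ g : G, (∃ j, g * r j ∈ D) ∨ (∑ j, d j * dirac (r j) ((fun y => g * y) ⁻¹' S)) ≤ Φ0)
    (F : Finset G) (x : G) :
    ∑ f ∈ F, (∑ j, d j * dirac (r j) ((fun y => f * x * y) ⁻¹' S)) ≤
      F.card * Φ0 + n * D.card := by
  have h1 : ∀ f ∈ F, (∑ j, d j * dirac (r j) ((fun y => f * x * y) ⁻¹' S)) ≤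
      Φ0 + ∑ j, dirac (f * (x * r j)) (D : Set G) := by
    intro f _
    rcases h (f * x) with ⟨j, hj⟩ | h2
    · have h3 : (1 : ℝ≥0∞) ≤ ∑ j, dirac (f * (x * r j)) (D : Set G) := by
        have h4 : dirac (f * (x * r j)) (D : Set G) = 1 := dirac_mem (by
          rw [← mul_assoc]; simpa using hj)
        rw [← h4]
        exact Finset.single_le_sum (f := fun j => dirac (f * (x * r j)) (D : Set G))
          (fun _ _ => bot_le) (Finset.mem_univ j)
      refine le_trans ?_ (le_trans h3 le_add_self)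
      rw [← hd]
      exact Finset.sum_le_sum fun j _ => by
        simpa using mul_le_mul_right (dirac_le_one (r j) _) (d j)
    · exact le_trans h2 le_self_add
  refine le_trans (Finset.sum_le_sum h1) ?_
  rw [Finset.sum_add_distrib, Finset.sum_const, nsmul_eq_mul, Finset.sum_comm]
  refine add_le_add le_rfl ?_
  refine le_trans (Finset.sum_le_sum fun j _ => card_filter_le F D (x * r j)) ?_
  rw [Finset.sum_const, Finset.card_univ, Fintype.card_fin, nsmul_eq_mul]

theorem average {F : Finset G} (hF : F.Nonempty) {ρ η : Set G → ℝ≥0∞} (hη : IsFinitary η)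
    {S : Set G} {Φ0 N : ℝ≥0∞}
    (h : ∀ x : G, ∑ f ∈ F, ρ ((fun y => f * x * y) ⁻¹' S) ≤ F.card * Φ0 + N) :
    conv (unif F) (conv η ρ) S ≤ Φ0 + N / F.card := by
  obtain ⟨m, x, e, he, rfl⟩ := hη
  have h0 : (F.card : ℝ≥0∞) ≠ 0 := by
    simpa using hF.ne_empty
  have ht : (F.card : ℝ≥0∞) ≠ ∞ := ENNReal.natCast_ne_top _
  rw [conv_unif]
  have h1 : ∑ f ∈ F, conv (fun B => ∑ j, e j * dirac (x j) B) ρ ((fun h => f * h) ⁻¹' S) ≤
      F.card * Φ0 + N := by
    simp_rw [conv_eq]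
    rw [Finset.sum_comm]
    calc ∑ j, ∑ f ∈ F, e j * ρ ((fun h => x j * h) ⁻¹' ((fun h => f * h) ⁻¹' S))
        = ∑ j, e j * ∑ f ∈ F, ρ ((fun y => f * x j * y) ⁻¹' S) := by
          refine Finset.sum_congr rfl fun j _ => ?_
          rw [Finset.mul_sum]
          refine Finset.sum_congr rfl fun f _ => ?_
          congr 2
          ext y
          simp [mul_assoc]
      _ ≤ ∑ j, e j * (F.card * Φ0 + N) :=
          Finset.sum_le_sum fun j _ => mul_le_mul_right (h (x j)) _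
      _ = F.card * Φ0 + N := by
          rw [← Finset.sum_mul, he, one_mul]
  calc (F.card : ℝ≥0∞)⁻¹ * _ ≤ (F.card : ℝ≥0∞)⁻¹ * (F.card * Φ0 + N) := mul_le_mul_right h1 _
    _ = Φ0 + N / F.card := by
        rw [mul_add, ← mul_assoc, ENNReal.inv_mul_cancel h0 ht, one_mul, ENNReal.div_eq_inv_mul]

theorem limit [Infinite G] {Ψ Φ0 N : ℝ≥0∞} (hN : N ≠ ∞)
    (h : ∀ F : Finset G, F.Nonempty → Ψ ≤ Φ0 + N / F.card) : Ψ ≤ Φ0 := by
  have h1 : ∀ n : ℕ, Ψ ≤ Φ0 + N / ((n + 1 : ℕ) : ℝ≥0∞) := by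
    intro n
    obtain ⟨F, hF⟩ := Infinite.exists_subset_card_eq G (n + 1)
    rw [← hF]
    exact h F (Finset.card_pos.1 (by omega))
  have h2 : Filter.Tendsto (fun n : ℕ => Φ0 + N / ((n + 1 : ℕ) : ℝ≥0∞)) Filter.atTop
      (nhds (Φ0 + 0)) := by
    refine Filter.Tendsto.const_add _ ?_
    have h3 : Filter.Tendsto (fun n : ℕ => N / ((n : ℕ) : ℝ≥0∞)) Filter.atTop (nhds 0) := by
      have h4 := ENNReal.Tendsto.const_div ENNReal.tendsto_nat_nhds_top (Or.inr hN)
      simpa using h4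
    exact h3.comp (Filter.tendsto_add_atTop_nat 1)
  rw [add_zero] at h2
  exact ge_of_tendsto' h2 h1

/-- The family functional. -/
noncomputable def Fam (C : ℕ → Finset G) (ρ : Set G → ℝ≥0∞) : ℝ≥0∞ :=
  ⨆ i, ⨆ t : G, ρ ((fun y => t * y) ⁻¹' (C i : Set G))

/-- The separation condition. -/
def Sep [DecidableEq G] (F H B : Finset G) (x : G) : Prop :=
  ∀ c ∈ F⁻¹ * F, c ≠ 1 → x⁻¹ * c * x ∉ H * B * H⁻¹

theorem same [DecidableEq G] {F H B : Finset G} {x : G} (hs : Sep F H B x) {f f' h h' b : G}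
    (hf : f ∈ F) (hf' : f' ∈ F) (hh : h ∈ H) (hh' : h' ∈ H) (hb : b ∈ B)
    (e : f * x * h * b = f' * x * h') : h * b = h' := by
  by_cases hc : f'⁻¹ * f = 1
  · have : f = f' := by
      rw [inv_mul_eq_one] at hc
      exact hc.symm
    subst this
    have e2 : f * x * (h * b) = f * x * h' := by rw [← e]; group
    exact mul_left_cancel e2
  · exfalso
    -- take inverses: x⁻¹ (f⁻¹ f') x = h b h'⁻¹
    have hc' : f⁻¹ * f' ≠ 1 := by
      intro h0
      apply hc
      rw [inv_mul_eq_one] at h0 ⊢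
      exact h0.symm
    refine hs (f⁻¹ * f') (Finset.mul_mem_mul (Finset.inv_mem_inv hf) hf') hc' ?_
    have e3 : x⁻¹ * (f⁻¹ * f') * x = h * b * h'⁻¹ := by
      have : f' * x = f * x * h * b * h'⁻¹ := by rw [e]; group
      calc x⁻¹ * (f⁻¹ * f') * x = x⁻¹ * f⁻¹ * (f' * x) := by group
        _ = h * b * h'⁻¹ := by rw [this]; group
    rw [e3]
    exact Finset.mul_mem_mul (Finset.mul_mem_mul hh hb) (Finset.inv_mem_inv hh')

/-- Lower bound. -/
theorem lower {l ρ : Set G → ℝ≥0∞} (hρ : IsFinitary ρ) {S H : Set G} {n : ℕ} (g : Fin n → G)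
    (c : Fin n → ℝ≥0∞) (hc : ∑ j, c j = 1) (hl : l = fun A => ∑ j, c j * dirac (g j) A) (x : G)
    (h : ∀ j, ∀ y ∈ H, g j * x * y ∈ S) : ρ H ≤ conv l (conv (dirac x) ρ) S := by
  subst hl
  rw [conv_eq]
  have h1 : ∀ j, ρ H ≤ conv (dirac x) ρ ((fun h => g j * h) ⁻¹' S) := by
    intro j
    rw [conv_dirac]
    refine hρ.mono fun y hy => ?_
    have := h j y hy
    simpa [mul_assoc] using this
  calc ρ H = ∑ j, c j * ρ H := by rw [← Finset.sum_mul, hc, one_mul]
    _ ≤ _ := Finset.sum_le_sum fun j _ => mul_le_mul_right (h1 j) _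

end Pool.Agent.V11242.ED
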