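import Mathlib
import Pool.Agent.V11242.ED.Main
import Pool.Agent.V11242.ED.Avoid

/-!
# Extremal densities: the two construction steps
-/

set_option autoImplicit false
set_option linter.unusedSectionVars false
set_option linter.style.haveILetI false

namespace Pool.Agent.V11242.ED

open scoped ENNReal Pointwise

variable {G : Type} [Group G] [DecidableEq G]

/-- The data used in both steps. -/
structure Data (C' : ℕ → Finset G) (F : ℕ → Finset G) (j : ℕ → ℕ) (B : ℕ → Finset G)
    (x : ℕ → G) : Prop where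
  surj : ∀ (F' : Finset G) (j' : ℕ), ∃ i, F i = F' ∧ j i = j'
  exh : ∀ R : Finset G, ∃ i0, ∀ i, i0 ≤ i → R ⊆ B i
  sep : ∀ i, Sep (F i) (C' (j i)) (B i) (x i)
  far : ∀ i i', i' < i → ∀ f ∈ F i, ∀ h ∈ C' (j i), ∀ b ∈ B i,
    ∀ c ∈ F i' * {x i'} * C' (j i'), f * x i * h ≠ c * b

theorem exists_pick [Infinite G]
    (hG : ∀ b : G, b ≠ 1 → {c | ∃ y : G, c = y * b * y⁻¹}.Infinite) (F H B E : Finset G) :
    ∃ x : G, x ∉ E ∧ Sep F H B x := by
  obtain ⟨x, hx, h⟩ := avoid hG ((F⁻¹ * F).erase 1) (H * B * H⁻¹) E (by simp)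
  refine ⟨x, hx, fun c hc hc1 => h c ?_⟩
  rw [Finset.mem_erase]
  exact ⟨hc1, hc⟩

theorem exists_data [Infinite G] [Countable G]
    (hG : ∀ b : G, b ≠ 1 → {c | ∃ y : G, c = y * b * y⁻¹}.Infinite) (C' : ℕ → Finset G) :
    ∃ (F : ℕ → Finset G) (j : ℕ → ℕ) (B : ℕ → Finset G) (x : ℕ → G), Data C' F j B x := by
  obtain ⟨p, hp⟩ := exists_surjective_nat (Finset G × ℕ)
  obtain ⟨e, he⟩ := exists_surjective_nat G
  choose pick hpick using fun (F H B E : Finset G) => exists_pick hG F H B E
  let F : ℕ → Finset G := fun i => (p i).1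
  let j : ℕ → ℕ := fun i => (p i).2
  let B : ℕ → Finset G := fun i => (Finset.range (i + 1)).image e
  let X : ℕ → Finset G → G := fun i D =>
    pick (F i) (C' (j i)) (B i) ((F i)⁻¹ * D * B i * (C' (j i))⁻¹)
  let D : ℕ → Finset G := fun i => Nat.rec ∅ (fun i D => D ∪ F i * {X i D} * C' (j i)) i
  let x : ℕ → G := fun i => X i (D i)
  have hD : ∀ i, D (i + 1) = D i ∪ F i * {x i} * C' (j i) := fun i => rfl
  have hDm : ∀ i i', i ≤ i' → D i ⊆ D i' := by
    intro i i' h
    induction h with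
    | refl => exact Finset.Subset.refl _
    | step _ ih => exact ih.trans (by rw [hD]; exact Finset.subset_union_left)
  refine ⟨F, j, B, x, ⟨?_, ?_, ?_, ?_⟩⟩
  · intro F' j'
    obtain ⟨i, hi⟩ := hp (F', j')
    exact ⟨i, by simp [F, hi], by simp [j, hi]⟩
  · intro R
    choose q hq using fun g : G => he g
    refine ⟨R.sup q, fun i hi g hg => ?_⟩
    simp only [B, Finset.mem_image, Finset.mem_range]
    refine ⟨q g, ?_, hq g⟩
    have : q g ≤ R.sup q := Finset.le_sup hg
    omega
  · intro i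
    exact (hpick _ _ _ _).2
  · intro i i' hii f hf h hh b hb c hc hcon
    have h1 : x i ∉ (F i)⁻¹ * D i * B i * (C' (j i))⁻¹ := (hpick _ _ _ _).1
    apply h1
    have h2 : x i = f⁻¹ * c * b * h⁻¹ := by
      have : f⁻¹ * (f * x i * h) * h⁻¹ = x i := by group
      rw [← this, hcon]
      group
    rw [h2]
    refine Finset.mul_mem_mul (Finset.mul_mem_mul (Finset.mul_mem_mul (Finset.inv_mem_inv hf) ?_)
      hb) (Finset.inv_mem_inv hh)
    refine hDm (i' + 1) i hii ?_
    rw [hD]
    exact Finset.mem_union_right _ hc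

/-- The common part of the two lower bounds. -/
theorem Data.lower {C' : ℕ → Finset G} {F : ℕ → Finset G} {j : ℕ → ℕ} {B : ℕ → Finset G}
    {x : ℕ → G} (h : Data C' F j B x) {ρ : Set G → ℝ≥0∞} (hρ : IsFinitary ρ)
    (Φ : (Set G → ℝ≥0∞) → ℝ≥0∞)
    (hΦ : ∀ ν, IsFinitary ν → ∀ i, ν ((F i * {x i} * C' (j i) : Finset G) : Set G) ≤ Φ ν) :
    Fam C' ρ ≤ T Φ ρ := by
  unfold T
  refine le_iInf₂ fun l hl => ?_
  unfold Fam
  refine iSup₂_le fun j' t => ?_
  have hl' := hl
  obtain ⟨n, g, c, hc, hl1⟩ := hl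
  obtain ⟨i, hi, hi'⟩ := h.surj (Finset.univ.image g) j'
  have hd : IsFinitary (dirac (x i * t)) := isFinitary_dirac _
  refine le_trans ?_ (le_iSup₂_of_le (dirac (x i * t)) hd (hΦ _ (hl'.conv (hd.conv hρ)) i))
  refine Pool.Agent.V11242.ED.lower hρ g c hc hl1 (x i * t) ?_
  intro a y hy
  have hy' : t * y ∈ C' j' := by simpa using hy
  rw [Finset.mem_coe, hi, hi']
  have : g a * (x i * t) * y = g a * x i * (t * y) := by group
  rw [this]
  refine Finset.mul_mem_mul (Finset.mul_mem_mul ?_ (Finset.mem_singleton_self _)) hy'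
  exact Finset.mem_image_of_mem _ (Finset.mem_univ a)

/-- The core estimate: a family of points whose pairwise quotients are in `B i`. -/
theorem Data.core {C' : ℕ → Finset G} {F : ℕ → Finset G} {j : ℕ → ℕ} {B : ℕ → Finset G}
    {x : ℕ → G} (h : Data C' F j B x) {n : ℕ} (r : Fin n → G) (d : Fin n → ℝ≥0∞) {i : ℕ}
    (hB : ∀ a b, (r a)⁻¹ * r b ∈ B i) (g : G) (S : Set G) {j0 : Fin n}
    (h0 : g * r j0 ∈ F i * {x i} * C' (j i))
    (hS : ∀ a, g * r a ∈ S → g * r a ∈ F i * {x i} * C' (j i)) :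
    (∑ a, d a * dirac (r a) ((fun y => g * y) ⁻¹' S)) ≤
      Fam C' (fun A => ∑ a, d a * dirac (r a) A) := by
  obtain ⟨fx, hfx, h0', hh0, e0⟩ := Finset.mem_mul.1 h0
  obtain ⟨f0, hf0, x0, hx0, e1⟩ := Finset.mem_mul.1 hfx
  rw [Finset.mem_singleton] at hx0
  subst hx0
  unfold Fam
  refine le_trans ?_ (le_iSup₂_of_le (j i) (h0' * (r j0)⁻¹) le_rfl)
  refine Finset.sum_le_sum fun a _ => mul_le_mul_right ?_ _
  by_cases ha : g * r a ∈ S
  · rw [dirac_mem (show r a ∈ (fun y => g * y) ⁻¹' S from ha)]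
    obtain ⟨fx', hfx', h', hh', e0'⟩ := Finset.mem_mul.1 (hS a ha)
    obtain ⟨f', hf', x', hx', e1'⟩ := Finset.mem_mul.1 hfx'
    rw [Finset.mem_singleton] at hx'
    subst hx'
    have key : h0' * ((r j0)⁻¹ * r a) = h' := by
      refine same (h.sep i) hf0 hf' hh0 hh' (hB j0 a) ?_
      rw [e1, e0, e1', e0']
      group
    rw [dirac_mem]
    show h0' * (r j0)⁻¹ * r a ∈ (C' (j i) : Set G)
    rw [mul_assoc, key]
    exact hh'
  · rw [dirac_not_mem (show r a ∉ (fun y => g * y) ⁻¹' S from ha)]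
    exact bot_le

theorem sum_eq_zero_of {n : ℕ} (r : Fin n → G) (d : Fin n → ℝ≥0∞) (g : G) (S : Set G)
    (h : ∀ a, g * r a ∉ S) : (∑ a, d a * dirac (r a) ((fun y => g * y) ⁻¹' S)) = 0 := by
  refine Finset.sum_eq_zero fun a _ => ?_
  rw [dirac_not_mem (show r a ∉ (fun y => g * y) ⁻¹' S from h a), mul_zero]

theorem exists_i0 {C' : ℕ → Finset G} {F : ℕ → Finset G} {j : ℕ → ℕ} {B : ℕ → Finset G}
    {x : ℕ → G} (h : Data C' F j B x) {n : ℕ} (r : Fin n → G) :
    ∃ i0, ∀ i, i0 ≤ i → ∀ a b, (r a)⁻¹ * r b ∈ B i := by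
  obtain ⟨i0, hi0⟩ := h.exh (Finset.univ.image fun p : Fin n × Fin n => (r p.1)⁻¹ * r p.2)
  refine ⟨i0, fun i hi a b => hi0 i hi ?_⟩
  rw [Finset.mem_image]
  exact ⟨(a, b), Finset.mem_univ _, rfl⟩

/-- The `T`-step. -/
theorem Data.T_Fam [Infinite G] {C' : ℕ → Finset G} {F : ℕ → Finset G} {j : ℕ → ℕ}
    {B : ℕ → Finset G} {x : ℕ → G} (h : Data C' F j B x) {ρ : Set G → ℝ≥0∞}
    (hρ : IsFinitary ρ) :
    T (Fam fun i => F i * {x i} * C' (j i)) ρ = Fam C' ρ := by
  refine le_antisymm ?_ ?_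
  · obtain ⟨n, r, d, hd, rfl⟩ := hρ
    obtain ⟨i0, hi0⟩ := exists_i0 h r
    let M : ℝ≥0∞ := n * ((∑ i ∈ Finset.range i0, (F i * {x i} * C' (j i)).card : ℕ) : ℝ≥0∞)
    have hM : M ≠ ∞ := ENNReal.mul_ne_top (ENNReal.natCast_ne_top _) (ENNReal.natCast_ne_top _)
    refine limit (G := G) hM fun E hE => ?_
    unfold T
    refine iInf₂_le_of_le (unif E) (isFinitary_unif hE) ?_
    refine iSup₂_le fun η hη => ?_
    refine iSup₂_le fun i t => ?_
    refine average hE hη fun z => ?_
    by_cases hi : i < i0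
    · refine le_trans (count r d hd ((F i * {x i} * C' (j i)).image fun y => t⁻¹ * y)
        ((fun y => t * y) ⁻¹' ((F i * {x i} * C' (j i) : Finset G) : Set G))
        (Fam C' (fun A => ∑ a, d a * dirac (r a) A)) ?_ E z) ?_
      · intro g
        by_cases hex : ∃ a, g * r a ∈ (F i * {x i} * C' (j i)).image fun y => t⁻¹ * y
        · exact Or.inl hex
        · refine Or.inr ?_
          push Not at hex
          rw [sum_eq_zero_of]
          · exact bot_le
          · intro a ha
            apply hex a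
            rw [Finset.mem_image]
            exact ⟨t * (g * r a), ha, by group⟩
      · refine add_le_add le_rfl (mul_le_mul_right ?_ _)
        norm_cast
        refine le_trans Finset.card_image_le ?_
        exact Finset.single_le_sum (f := fun i => (F i * {x i} * C' (j i)).card)
          (fun _ _ => Nat.zero_le _) (Finset.mem_range.2 hi)
    · refine le_trans (count r d hd ∅
        ((fun y => t * y) ⁻¹' ((F i * {x i} * C' (j i) : Finset G) : Set G))
        (Fam C' (fun A => ∑ a, d a * dirac (r a) A)) ?_ E z) ?_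
      · intro g
        refine Or.inr ?_
        by_cases hex : ∃ a, t * (g * r a) ∈ F i * {x i} * C' (j i)
        · obtain ⟨j0, hj0⟩ := hex
          have h1 := h.core r d (hi0 i (not_lt.1 hi)) (t * g)
            ((F i * {x i} * C' (j i) : Finset G) : Set G) (j0 := j0)
            (by rw [mul_assoc t g]; exact hj0) (fun a ha => Finset.mem_coe.1 ha)
          refine le_trans (le_of_eq ?_) h1
          refine Finset.sum_congr rfl fun a _ => ?_
          congr 2
          ext y
          simp [mul_assoc]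
        · push Not at hex
          rw [sum_eq_zero_of]
          · exact bot_le
          · intro a ha
            exact hex a ha
      · refine add_le_add le_rfl ?_
        simp
  · refine h.lower hρ _ fun ν hν i => ?_
    unfold Fam
    refine le_iSup₂_of_le i 1 ?_
    simp

/-- The base step. -/
theorem Data.T_union [Infinite G] {C' : ℕ → Finset G} {F : ℕ → Finset G} {j : ℕ → ℕ}
    {B : ℕ → Finset G} {x : ℕ → G} (h : Data C' F j B x) {ρ : Set G → ℝ≥0∞}
    (hρ : IsFinitary ρ) :
    T (fun ν => ν (⋃ i, ((F i * {x i} * C' (j i) : Finset G) : Set G))) ρ = Fam C' ρ := by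
  refine le_antisymm ?_ ?_
  · obtain ⟨n, r, d, hd, rfl⟩ := hρ
    obtain ⟨i0, hi0⟩ := exists_i0 h r
    let D : Finset G := (Finset.range i0).biUnion fun i => F i * {x i} * C' (j i)
    let M : ℝ≥0∞ := n * (D.card : ℝ≥0∞)
    have hM : M ≠ ∞ := ENNReal.mul_ne_top (ENNReal.natCast_ne_top _) (ENNReal.natCast_ne_top _)
    refine limit (G := G) hM fun E hE => ?_
    unfold T
    refine iInf₂_le_of_le (unif E) (isFinitary_unif hE) ?_
    refine iSup₂_le fun η hη => ?_
    refine average hE hη fun z => ?_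
    refine count r d hd D _ (Fam C' (fun A => ∑ a, d a * dirac (r a) A)) ?_ E z
    intro g
    by_cases hD : ∃ a, g * r a ∈ D
    · exact Or.inl hD
    · refine Or.inr ?_
      push Not at hD
      by_cases hex : ∃ a, g * r a ∈ ⋃ i, ((F i * {x i} * C' (j i) : Finset G) : Set G)
      · obtain ⟨j0, hj0⟩ := hex
        obtain ⟨i, hi⟩ := Set.mem_iUnion.1 hj0
        rw [Finset.mem_coe] at hi
        have hge : ∀ a i', g * r a ∈ F i' * {x i'} * C' (j i') → i0 ≤ i' := by
          intro a i' ha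
          by_contra hlt
          push Not at hlt
          exact hD a (Finset.mem_biUnion.2 ⟨i', Finset.mem_range.2 hlt, ha⟩)
        refine h.core r d (hi0 i (hge j0 i hi)) g _ hi ?_
        intro a ha
        obtain ⟨i', hi'⟩ := Set.mem_iUnion.1 ha
        rw [Finset.mem_coe] at hi'
        rcases lt_trichotomy i i' with hlt | heq | hlt
        · exfalso
          obtain ⟨fx, hfx, h', hh', e0⟩ := Finset.mem_mul.1 hi'
          obtain ⟨f, hf, x0, hx0, e1⟩ := Finset.mem_mul.1 hfx
          rw [Finset.mem_singleton] at hx0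
          subst hx0
          refine h.far i' i hlt f hf h' hh' ((r j0)⁻¹ * r a) (hi0 i' (hge a i' hi') j0 a)
            (g * r j0) hi ?_
          rw [e1, e0]
          group
        · subst heq
          exact hi'
        · exfalso
          obtain ⟨fx, hfx, h', hh', e0⟩ := Finset.mem_mul.1 hi
          obtain ⟨f, hf, x0, hx0, e1⟩ := Finset.mem_mul.1 hfx
          rw [Finset.mem_singleton] at hx0
          subst hx0
          refine h.far i i' hlt f hf h' hh' ((r a)⁻¹ * r j0) (hi0 i (hge j0 i hi) a j0)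
            (g * r a) hi' ?_
          rw [e1, e0]
          group
      · push Not at hex
        rw [sum_eq_zero_of _ _ _ _ hex]
        exact bot_le
  · refine h.lower hρ _ fun ν hν i => ?_
    exact hν.mono (Set.subset_iUnion (fun i => ((F i * {x i} * C' (j i) : Finset G) : Set G)) i)

end Pool.Agent.V11242.ED
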