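import Mathlib
import Pool.Agent.V11242.ED.Step

/-!
# Extremal densities: infinitely many extremal densities on countable ICC groups
-/

set_option autoImplicit false
set_option linter.unusedSectionVars false
set_option linter.style.haveILetI false

namespace Pool.Agent.V11242.ED

open scoped ENNReal Pointwise

variable {G : Type} [Group G]

theorem exists_set [Infinite G] [Countable G]
    (hG : ∀ b : G, b ≠ 1 → {c | ∃ y : G, c = y * b * y⁻¹}.Infinite) (k : ℕ) :
    ∀ C' : ℕ → Finset G, ∃ A : Set G, ∀ ρ, IsFinitary ρ → W A (k + 1) ρ = Fam C' ρ := by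
  classical
  induction k with
  | zero =>
    intro C'
    obtain ⟨F, j, B, x, h⟩ := exists_data hG C'
    exact ⟨⋃ i, ((F i * {x i} * C' (j i) : Finset G) : Set G), fun ρ hρ => h.T_union hρ⟩
  | succ k ih =>
    intro C'
    obtain ⟨F, j, B, x, h⟩ := exists_data hG C'
    obtain ⟨A, hA⟩ := ih (fun i => F i * {x i} * C' (j i))
    refine ⟨A, fun ρ hρ => ?_⟩
    show T (W A (k + 1)) ρ = Fam C' ρ
    rw [T_congr hA hρ, h.T_Fam hρ]

theorem Fam_one_dirac : Fam (fun _ => ({1} : Finset G)) (dirac 1) = 1 := by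
  refine le_antisymm ?_ ?_
  · unfold Fam
    exact iSup₂_le fun _ _ => dirac_le_one _ _
  · unfold Fam
    refine le_iSup₂_of_le 0 1 ?_
    rw [dirac_mem]
    simp

theorem T_Fam_one [Infinite G] {ρ : Set G → ℝ≥0∞} (hρ : IsFinitary ρ) :
    T (Fam (fun _ => ({1} : Finset G))) ρ = 0 := by
  classical
  refine le_antisymm ?_ bot_le
  obtain ⟨n, r, d, hd, rfl⟩ := hρ
  let M : ℝ≥0∞ := n * ((1 : ℕ) : ℝ≥0∞)
  have hM : M ≠ ∞ := ENNReal.mul_ne_top (ENNReal.natCast_ne_top _) (ENNReal.natCast_ne_top _)
  refine limit (G := G) hM fun E hE => ?_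
  unfold T
  refine iInf₂_le_of_le (unif E) (isFinitary_unif hE) ?_
  refine iSup₂_le fun η hη => ?_
  refine iSup₂_le fun i t => ?_
  refine average hE hη fun z => ?_
  have h1 := count r d hd ({t⁻¹} : Finset G) ((fun y => t * y) ⁻¹' (({1} : Finset G) : Set G)) 0
    (by
      intro g
      by_cases hex : ∃ a, g * r a ∈ ({t⁻¹} : Finset G)
      · exact Or.inl hex
      · refine Or.inr ?_
        push Not at hex
        rw [sum_eq_zero_of]
        intro a ha
        apply hex a
        rw [Finset.mem_singleton]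
        simpa using ha) E z
  rw [Finset.card_singleton] at h1
  exact h1

theorem T_zero {ρ : Set G → ℝ≥0∞} : T (fun _ => 0) ρ = 0 := by
  refine le_antisymm ?_ bot_le
  unfold T
  refine iInf₂_le_of_le (dirac 1) (isFinitary_dirac 1) ?_
  simp

theorem exists_separating [Infinite G] [Countable G]
    (hG : ∀ b : G, b ≠ 1 → {c | ∃ y : G, c = y * b * y⁻¹}.Infinite) (k : ℕ) :
    ∃ A : Set G, W A (k + 1) (dirac 1) = 1 ∧ ∀ m, k < m → W A (m + 1) (dirac 1) = 0 := by
  obtain ⟨A, hA⟩ := exists_set hG k (fun _ => ({1} : Finset G))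
  refine ⟨A, by rw [hA _ (isFinitary_dirac 1), Fam_one_dirac], ?_⟩
  have key : ∀ m, k < m → ∀ ρ, IsFinitary ρ → W A (m + 1) ρ = 0 := by
    intro m hm
    induction m, hm using Nat.le_induction with
    | base =>
      intro ρ hρ
      show T (W A (k + 1)) ρ = 0
      rw [T_congr hA hρ, T_Fam_one hρ]
    | succ m _ ih =>
      intro ρ hρ
      show T (W A (m + 1)) ρ = 0
      rw [T_congr ih hρ, T_zero]
  exact fun m hm => key m hm _ (isFinitary_dirac 1)

theorem extremal_infinite [Infinite G] [Countable G]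
    (hG : ∀ b : G, b ≠ 1 → {c | ∃ y : G, c = y * b * y⁻¹}.Infinite) :
    (Extremal G).Infinite := by
  refine Set.infinite_of_injective_forall_mem
    (f := fun k : ℕ => (fun A : Set G => W A (k + 1) (dirac 1))) ?_ (fun k => mem_Extremal k)
  have key : ∀ a b : ℕ, a < b →
      (fun A : Set G => W A (a + 1) (dirac 1)) ≠ (fun A : Set G => W A (b + 1) (dirac 1)) := by
    intro a b hab he
    obtain ⟨A, h1, h2⟩ := exists_separating hG a
    have h3 := congrFun he A
    rw [h1, h2 b hab] at h3
    exact one_ne_zero h3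
  intro a b hab
  rcases lt_trichotomy a b with h | h | h
  · exact absurd hab (key a b h)
  · exact h
  · exact absurd hab.symm (key b a h)

theorem infinite_of_icc [Nontrivial G]
    (hG : ∀ b : G, b ≠ 1 → {c | ∃ y : G, c = y * b * y⁻¹}.Infinite) : Infinite G := by
  obtain ⟨b, hb⟩ := exists_ne (1 : G)
  by_contra h
  rw [not_infinite_iff_finite] at h
  exact hG b hb (Set.toFinite _)

end Pool.Agent.V11242.ED
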