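import Mathlib
import Pool.Agent.V11242.ED.Infinite

/-!
# Extremal densities: an amenable countable ICC group
-/

set_option autoImplicit false
set_option linter.unusedSectionVars false
set_option linter.style.haveILetI false

namespace Pool.Agent.V11242.ED

open scoped ENNReal Pointwise

theorem amenable_of_exhaustion {G : Type} [Group G] (F : ℕ → Finset G)
    (hne : ∀ n, (F n).Nonempty)
    (hg : ∀ g : G, ∃ N, ∀ n, N ≤ n → ∀ x, g * x ∈ F n ↔ x ∈ F n) : Amenable G := by
  classical
  let U : Ultrafilter ℕ := Filter.hyperfilter ℕ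
  have hex : ∀ A : Set G, ∃ a : ℝ≥0∞, Filter.Tendsto (fun n => unif (F n) A) U (nhds a) := by
    intro A
    have := (U.map (fun n => unif (F n) A)).le_nhds_lim
    exact ⟨_, this⟩
  choose μ hμ using hex
  refine ⟨μ, ⟨?_, ?_, ?_, ?_⟩, ?_⟩
  · intro A B hAB
    exact le_of_tendsto_of_tendsto' (hμ A) (hμ B) fun n =>
      (isFinitary_unif (hne n)).mono hAB
  · refine tendsto_nhds_unique (hμ ∅) ?_
    have : (fun n => unif (F n) (∅ : Set G)) = fun _ => 0 := by
      funext n
      simp [unif, dirac]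
    rw [this]
    exact tendsto_const_nhds
  · refine tendsto_nhds_unique (hμ Set.univ) ?_
    have : (fun n => unif (F n) (Set.univ : Set G)) = fun _ => 1 := by
      funext n
      have h0 : ((F n).card : ℝ≥0∞) ≠ 0 := by
        simpa using (hne n).ne_empty
      simp only [unif, dirac, Set.indicator_univ, Finset.sum_const, nsmul_eq_mul, mul_one]
      exact ENNReal.inv_mul_cancel h0 (ENNReal.natCast_ne_top _)
    rw [this]
    exact tendsto_const_nhds
  · intro A B hAB
    refine tendsto_nhds_unique (hμ (A ∪ B)) ?_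
    have : (fun n => unif (F n) (A ∪ B)) = fun n => unif (F n) A + unif (F n) B := by
      funext n
      unfold unif
      rw [← mul_add, ← Finset.sum_add_distrib]
      congr 1
      refine Finset.sum_congr rfl fun x _ => ?_
      unfold dirac
      rw [Set.indicator_union_of_disjoint hAB]
    rw [this]
    exact (hμ A).add (hμ B)
  · intro g A
    refine tendsto_nhds_unique (hμ _) ?_
    refine (hμ A).congr' ?_
    obtain ⟨N, hN⟩ := hg g
    have hev : ∀ᶠ n in (Filter.atTop : Filter ℕ), unif (F n) A =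
        unif (F n) ((fun h => g * h) ⁻¹' A) := by
      refine Filter.eventually_atTop.2 ⟨N, fun n hn => ?_⟩
      unfold unif
      congr 1
      refine (Finset.sum_bij (fun x _ => g * x) (fun x hx => (hN n hn x).2 hx)
        (fun x _ y _ h => mul_left_cancel h) (fun y hy => ?_) (fun x _ => rfl)).symm
      refine ⟨g⁻¹ * y, ?_, by group⟩
      rw [← hN n hn]
      simpa using hy
    have hle : (U : Filter ℕ) ≤ Filter.atTop := by
      rw [← Nat.cofinite_eq_atTop]
      exact Filter.hyperfilter_le_cofinite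
    exact hle hev

/-- The group of finitary permutations of `ℕ`. -/
def FP : Subgroup (Equiv.Perm ℕ) where
  carrier := {σ | ∃ n, ∀ m, n ≤ m → σ m = m}
  mul_mem' := by
    rintro a b ⟨n, hn⟩ ⟨k, hk⟩
    refine ⟨max n k, fun m hm => ?_⟩
    rw [Equiv.Perm.mul_apply, hk m (le_trans (le_max_right _ _) hm),
      hn m (le_trans (le_max_left _ _) hm)]
  one_mem' := ⟨0, fun _ _ => rfl⟩
  inv_mem' := by
    rintro a ⟨n, hn⟩
    refine ⟨n, fun m hm => ?_⟩
    rw [Equiv.Perm.inv_eq_iff_eq, hn m hm]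

/-- The elements of `FP` which fix all numbers from `n` on. -/
def lev (n : ℕ) : Set FP := {σ | ∀ m, n ≤ m → (σ : Equiv.Perm ℕ) m = m}

theorem lev_finite (n : ℕ) : (lev n).Finite := by
  have h1 : ({σ : Equiv.Perm ℕ | ∀ a, ¬ a < n → σ a = a}).Finite := by
    have : Finite {σ : Equiv.Perm ℕ // ∀ a, ¬ a < n → σ a = a} :=
      Finite.of_equiv _ (Equiv.Perm.subtypeEquivSubtypePerm (fun a : ℕ => a < n))
    exact this
  refine Set.Finite.of_finite_image (f := fun σ : FP => (σ : Equiv.Perm ℕ)) (h1.subset ?_)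
    Subtype.val_injective.injOn
  rintro _ ⟨σ, hσ, rfl⟩ a ha
  exact hσ a (not_lt.1 ha)

theorem mem_lev (σ : FP) : ∃ n, ∀ m, n ≤ m → σ ∈ lev m := by
  obtain ⟨n, hn⟩ := σ.2
  exact ⟨n, fun m hm k hk => hn k (le_trans hm hk)⟩

instance : Countable FP := by
  have : (Set.univ : Set FP) = ⋃ n, lev n := by
    symm
    rw [Set.eq_univ_iff_forall]
    intro σ
    obtain ⟨n, hn⟩ := mem_lev σ
    exact Set.mem_iUnion.2 ⟨n, hn n le_rfl⟩
  rw [← Set.countable_univ_iff, this]
  exact Set.countable_iUnion fun n => (lev_finite n).countable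

theorem swap_mem (a b : ℕ) : Equiv.swap a b ∈ FP := by
  refine ⟨max a b + 1, fun m hm => ?_⟩
  have h1 : a ≤ max a b := le_max_left _ _
  have h2 : b ≤ max a b := le_max_right _ _
  exact Equiv.swap_apply_of_ne_of_ne (by omega) (by omega)

instance : Nontrivial FP := by
  refine ⟨⟨1, ⟨Equiv.swap 0 1, swap_mem 0 1⟩, fun h => ?_⟩⟩
  have h1 : (1 : Equiv.Perm ℕ) = Equiv.swap 0 1 := congrArg Subtype.val h
  have h2 := congrArg (fun σ : Equiv.Perm ℕ => σ 0) h1
  simp at h2

theorem icc_FP (b : FP) (hb : b ≠ 1) : {c | ∃ y : FP, c = y * b * y⁻¹}.Infinite := by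
  intro hfin
  choose N hN using mem_lev
  have hne : ∃ i, (b : Equiv.Perm ℕ) i ≠ i := by
    by_contra h
    push Not at h
    apply hb
    apply Subtype.ext
    apply Equiv.ext
    exact h
  obtain ⟨i, hi⟩ := hne
  obtain ⟨M, hM⟩ := (hfin.image N).bddAbove
  let y : FP := ⟨Equiv.swap i M, swap_mem i M⟩
  have h1 : y * b * y⁻¹ ∈ {c | ∃ y : FP, c = y * b * y⁻¹} := ⟨y, rfl⟩
  have h2 : N (y * b * y⁻¹) ≤ M := hM (Set.mem_image_of_mem N h1)
  have h3 : ((y * b * y⁻¹ : FP) : Equiv.Perm ℕ) M = M := hN _ M h2 M le_rfl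
  have h4 : ((y * b * y⁻¹ : FP) : Equiv.Perm ℕ) M = Equiv.swap i M ((b : Equiv.Perm ℕ) i) := by
    show (Equiv.swap i M * (b : Equiv.Perm ℕ) * (Equiv.swap i M)⁻¹) M = _
    rw [Equiv.Perm.mul_apply, Equiv.Perm.mul_apply, Equiv.swap_inv, Equiv.swap_apply_right]
  rw [h4] at h3
  apply hi
  have h5 : Equiv.swap i M ((b : Equiv.Perm ℕ) i) = Equiv.swap i M i := by
    rw [h3, Equiv.swap_apply_left]
  exact (Equiv.swap i M).injective h5

theorem amenable_FP : Amenable FP := by
  classical
  refine amenable_of_exhaustion (fun n => (lev_finite n).toFinset) (fun n => ?_) (fun g => ?_)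
  · refine ⟨1, ?_⟩
    rw [Set.Finite.mem_toFinset]
    exact fun m _ => rfl
  · obtain ⟨N, hN⟩ := mem_lev g
    refine ⟨N, fun n hn x => ?_⟩
    rw [Set.Finite.mem_toFinset, Set.Finite.mem_toFinset]
    have hg := hN n hn
    constructor
    · intro h m hm
      have h1 : (g : Equiv.Perm ℕ) ((x : Equiv.Perm ℕ) m) = m := h m hm
      have h2 : (g : Equiv.Perm ℕ) m = m := hg m hm
      exact (g : Equiv.Perm ℕ).injective (h1.trans h2.symm)
    · intro h m hm
      show (g : Equiv.Perm ℕ) ((x : Equiv.Perm ℕ) m) = m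
      rw [h m hm, hg m hm]

end Pool.Agent.V11242.ED
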